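import Mathlib
import Pool.Agent.Helper1x.LA.Defs
import Pool.Agent.Helper1x.LA.Final

/-!
# The approximation ratio of the `k`-lookahead auction does not tend to one

The definitions are in `Pool/Agent/Helper1x/LA/Defs.lean`.

The hard distribution. There are `k + 1` bidders. The last bidder always has value `1`. The bidders
`2, ..., k` have values `1 + δ (b_i + 1)` with `b_i` in `{0, ..., Q - 1}`; the residue of the sum of
the `b_i` modulo `n + 1` is the type `l`. The value of bidder `1` has an equal-revenue distribution
on the levels `p_0 < ... < p_l`. With the last bidder as a fall-back one offers `p_l` to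
bidder `1` and `1` to the last bidder. A mechanism for the bidders `1, ..., k` that sells to
one of the bidders `2, ..., k` when bidder `1` rejects does this with a probability that almost does
not depend on the type, because the allocation of bidder `i` is monotone in `b_i` and all types
occur along each short interval of values of `b_i`.
-/

set_option autoImplicit false

namespace Pool.Agent.Results.MP_0f9109_lc.RatioBoundedAway

open Pool.Agent.Helper1x.LA

/-- **Q1 has a negative answer.** For every `k` the set of the ratios `rev_k(D) / OPT(D)` is
nonempty and consists of nonnegative numbers, so that `rho k` is its infimum; for all `k ≥ 2` we have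
`rho k ≤ e / (1 + e)`; and `rho k` does not tend to `1` as `k` tends to infinity. -/
theorem result :
    (∀ k : ℕ, (ratios k).Nonempty ∧ ∀ x ∈ ratios k, 0 ≤ x) ∧
    (∀ k : ℕ, 2 ≤ k → rho k ≤ Real.exp 1 / (1 + Real.exp 1)) ∧
    ¬ Filter.Tendsto rho Filter.atTop (nhds 1) :=
  ⟨fun k => ⟨ratios_nonempty k, ratios_nonneg k⟩, rho_le, not_tendsto⟩

end Pool.Agent.Results.MP_0f9109_lc.RatioBoundedAway
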